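import Pool.Agent.Run7.h35.NEG.Iface2
import Pool.Agent.Run7.h163.NEG.SPARSE

/-!
# Piece MIXU for helper35's project (`MP_6c92e3_an`)

The final mixing bound in terms of the masses on infrequent rows.
-/

set_option autoImplicit false

namespace Run7.h778.NEG

open Finset Module Classical Run7.h35.NEG

variable {T : Tower} {J : ℕ}

/-- the matrices of the tower are bounded on tuples -/
theorem hsGM_le {H₂ ε C₀ : ℝ} {g Γ : ℕ} (hT : T.OK H₂ ε C₀ g Γ) (hε : ε ≤ 1)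
    (s : ℕ) (hst : s ≤ T.top) (M : Fin (2 ^ T.a) → Fin J → ℝ) :
    hs (T.GM s M) ≤ 2 * hs M + 8 / (T.k s : ℝ) ^ 2 * ∑ j, (∑ ν, |M ν j|) ^ 2 := by
  have h1 : hs (T.GM s M) = ∑ j, ∑ b, (∑ ν, T.G s b ν * M ν j) ^ 2 := by
    unfold hs Tower.GM
    exact sum_comm
  have h2 : hs M = ∑ j, ∑ ν, M ν j ^ 2 := by
    unfold hs
    exact sum_comm
  rw [h1, h2, mul_sum, mul_sum, ← sum_add_distrib]
  exact sum_le_sum fun j _ => Run7.h163.NEG.SPARSE.G_le hT hε s hst (fun ν => M ν j)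

theorem cost_split (y : (s : ℕ) → Fin (T.n s) → Fin J → ℝ)
    (c : ℕ → Fin (2 ^ T.a) → Fin J → ℝ) :
    ∑ j, T.cost (fun s b => y s b j) (fun s ν => c s ν j) =
      ∑ s ∈ range (T.top + 1), (hs (y s) + hs (c s) +
        ∑ j, (∑ ν, |c s ν j|) ^ 2 / (T.k s : ℝ)) := by
  unfold Tower.cost
  rw [sum_comm]
  refine sum_congr rfl fun s _ => ?_
  rw [sum_add_distrib, sum_add_distrib]
  congr 1
  congr 1
  · unfold hs
    exact sum_comm
  · unfold hs
    exact sum_comm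

/-- the `ℓ₁` norm of the accumulated contents -/
theorem acc_l1_le {H₂ ε C₀ : ℝ} {g Γ : ℕ} (hT : T.OK H₂ ε C₀ g Γ) (hg : 4 ≤ g)
    (hK : 1 ≤ T.K) (y : (s : ℕ) → Fin (T.n s) → ℝ) (c : ℕ → Fin (2 ^ T.a) → ℝ) (A : ℝ)
    (hc : T.cost y c ≤ A) (s : ℕ) (hst : s ≤ T.top) :
    (∑ ν, |T.acc c s ν|) ^ 2 ≤ ((T.top + 1) * (T.K : ℝ) ^ T.top) ^ 2 * (A * T.k s) := by
  have hkpos : ∀ s, (1 : ℝ) ≤ T.k s := fun s => by exact_mod_cast hT.one_le_a.trans (hT.k_ge s)
  have hterm : ∀ s, 0 ≤ (∑ b, y s b ^ 2 + ∑ ν, c s ν ^ 2 + (∑ ν, |c s ν|) ^ 2 / (T.k s : ℝ)) := by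
    intro s
    have := hkpos s
    positivity
  have hterm_le : ∀ s ≤ T.top, (∑ b, y s b ^ 2 + ∑ ν, c s ν ^ 2 +
      (∑ ν, |c s ν|) ^ 2 / (T.k s : ℝ)) ≤ A := by
    intro s hst
    refine le_trans ?_ hc
    unfold Tower.cost
    exact Finset.single_le_sum (f := fun s => (∑ b, y s b ^ 2 + ∑ ν, c s ν ^ 2 +
      (∑ ν, |c s ν|) ^ 2 / (T.k s : ℝ))) (fun s _ => hterm s) (by simp; omega)
  have hA0 : 0 ≤ A := (hterm s).trans (hterm_le s hst)
  have hc1 : ∀ s' ≤ s, ∑ ν, |c s' ν| ≤ Real.sqrt (A * T.k s) := by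
    intro s' hs'
    have h1 := hterm_le s' (hs'.trans hst)
    have h2 : 0 ≤ ∑ b, y s' b ^ 2 := Finset.sum_nonneg fun b _ => sq_nonneg _
    have h3 : 0 ≤ ∑ ν, c s' ν ^ 2 := Finset.sum_nonneg fun b _ => sq_nonneg _
    have hk := hkpos s'
    have h4 : (∑ ν, |c s' ν|) ^ 2 / (T.k s' : ℝ) ≤ A := by linarith
    rw [div_le_iff₀ (by linarith)] at h4
    have h5 : (T.k s' : ℝ) ≤ T.k s := by
      exact_mod_cast Run7.h163.NEG.SPARSE.k_mono hT hg hs' hst
    refine Real.le_sqrt_of_sq_le (h4.trans ?_)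
    exact mul_le_mul_of_nonneg_left h5 hA0
  have hK' : (1 : ℝ) ≤ T.K := by exact_mod_cast hK
  have hpM : ∀ j, |(if j ≤ s then (T.K : ℝ) ^ (s - j) else 0)| ≤ (T.K : ℝ) ^ T.top := by
    intro j
    split_ifs with hj
    · rw [abs_of_nonneg (by positivity)]
      exact pow_le_pow_right₀ hK' (by omega)
    · rw [abs_zero]; positivity
  have h1 := Run7.h163.NEG.SPARSE.sum_abs_range_le s ((T.K : ℝ) ^ T.top)
    (fun j => if j ≤ s then (T.K : ℝ) ^ (s - j) else 0) hpM c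
  have h2 : ∑ s' ∈ range (s + 1), ∑ ν, |c s' ν| ≤ (T.top + 1) * Real.sqrt (A * T.k s) := by
    calc ∑ s' ∈ range (s + 1), ∑ ν, |c s' ν| ≤ ∑ s' ∈ range (s + 1), Real.sqrt (A * T.k s) :=
          sum_le_sum fun s' hs' => hc1 s' (by simp at hs'; omega)
      _ = ((s : ℝ) + 1) * Real.sqrt (A * T.k s) := by simp
      _ ≤ _ := by
          have : (s : ℝ) ≤ T.top := by exact_mod_cast hst
          gcongr
  have h3 : ∑ ν, |T.acc c s ν| ≤ (T.K : ℝ) ^ T.top * ((T.top + 1) * Real.sqrt (A * T.k s)) := by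
    calc ∑ ν, |T.acc c s ν| = ∑ ν, |∑ s' ∈ range (s + 1),
          (if s' ≤ s then (T.K : ℝ) ^ (s - s') else 0) * c s' ν| := by
          refine sum_congr rfl fun ν _ => ?_
          unfold Tower.acc
          congr 1
          refine sum_congr rfl fun s' hs' => ?_
          rw [if_pos (by simp at hs'; omega)]
      _ ≤ _ := h1
      _ ≤ _ := mul_le_mul_of_nonneg_left h2 (by positivity)
  have h4 : 0 ≤ ∑ ν, |T.acc c s ν| := sum_nonneg fun _ _ => abs_nonneg _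
  calc (∑ ν, |T.acc c s ν|) ^ 2 ≤
        ((T.K : ℝ) ^ T.top * ((T.top + 1) * Real.sqrt (A * T.k s))) ^ 2 :=
        pow_le_pow_left₀ h4 h3 2
    _ = ((T.top + 1) * (T.K : ℝ) ^ T.top) ^ 2 * (Real.sqrt (A * T.k s)) ^ 2 := by ring
    _ = _ := by
        rw [Real.sq_sqrt]
        have := hkpos s
        positivity

/-- the number of frequent rows -/
theorem card_Sf_le {H₂ ε C₀ : ℝ} {g Γ : ℕ} (hT : T.OK H₂ ε C₀ g Γ) (hg : 4 ≤ g)
    (hJ : 1 ≤ J) (c : ℕ → Fin (2 ^ T.a) → Fin J → ℝ) (Lo : ℕ → ℕ) (B : ℝ)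
    (hc : T.Sparse c B) (s : ℕ) (hst : s < T.top) :
    (Sf T c Lo s).card ≤ Lo s * ((T.top + 1) * T.k s ^ 2) := by
  have hcard : ∀ s' ≤ s, ∀ j, (univ.filter (fun ν => c s' ν j ≠ 0)).card ≤ T.k s ^ 2 := by
    intro s' hs' j
    have h := (hc s' j).2.1
    have hk := Run7.h163.NEG.SPARSE.k_mono hT hg hs' hst.le
    exact h.trans (Nat.pow_le_pow_left hk 2)
  have hocc : ∑ ν, occ c s ν ≤ J * ((T.top + 1) * T.k s ^ 2) := by
    have h1 : ∀ ν, occ c s ν ≤ ∑ s' ∈ range (s + 1), ∑ j : Fin J,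
        (if c s' ν j ≠ 0 then 1 else 0) := by
      intro ν
      unfold occ
      rw [card_filter, sum_comm]
      refine sum_le_sum fun j _ => ?_
      split_ifs with h
      · obtain ⟨s', hs', h⟩ := h
        refine le_trans ?_ (single_le_sum (f := fun s' => if c s' ν j ≠ 0 then 1 else 0)
          (fun _ _ => Nat.zero_le _) hs')
        simp [h]
      · exact Nat.zero_le _
    calc ∑ ν, occ c s ν ≤ ∑ ν, ∑ s' ∈ range (s + 1), ∑ j : Fin J,
          (if c s' ν j ≠ 0 then 1 else 0) := sum_le_sum fun ν _ => h1 ν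
      _ = ∑ s' ∈ range (s + 1), ∑ j : Fin J, (univ.filter (fun ν => c s' ν j ≠ 0)).card := by
          rw [sum_comm]
          refine sum_congr rfl fun s' _ => ?_
          rw [sum_comm]
          refine sum_congr rfl fun j _ => ?_
          rw [card_filter]
      _ ≤ ∑ s' ∈ range (s + 1), ∑ j : Fin J, T.k s ^ 2 :=
          sum_le_sum fun s' hs' => sum_le_sum fun j _ => hcard s' (by simp at hs'; omega) j
      _ = (s + 1) * (J * T.k s ^ 2) := by simp
      _ ≤ (T.top + 1) * (J * T.k s ^ 2) := Nat.mul_le_mul_right _ (by omega)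
      _ = _ := by ring
  have h2 : J * (Sf T c Lo s).card ≤ Lo s * ∑ ν, occ c s ν := by
    calc J * (Sf T c Lo s).card = ∑ ν ∈ Sf T c Lo s, J := by rw [sum_const, smul_eq_mul, mul_comm]
      _ ≤ ∑ ν ∈ Sf T c Lo s, Lo s * occ c s ν := by
          refine sum_le_sum fun ν hν => ?_
          unfold Sf at hν
          rw [if_pos hst, mem_filter] at hν
          exact hν.2
      _ ≤ ∑ ν, Lo s * occ c s ν := sum_le_sum_of_subset (subset_univ _)
      _ = _ := by rw [mul_sum]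
  have h3 : J * (Sf T c Lo s).card ≤ J * (Lo s * ((T.top + 1) * T.k s ^ 2)) := by
    calc _ ≤ _ := h2
      _ ≤ Lo s * (J * ((T.top + 1) * T.k s ^ 2)) := Nat.mul_le_mul_left _ hocc
      _ = _ := by ring
  exact Nat.le_of_mul_le_mul_left h3 (by omega)

theorem accJ_zero (c : ℕ → Fin (2 ^ T.a) → Fin J → ℝ) (ν : Fin (2 ^ T.a)) (j : Fin J) :
    T.accJ c 0 ν j = c 0 ν j := T.acc_zero _ _

theorem accJ_succ (c : ℕ → Fin (2 ^ T.a) → Fin J → ℝ) (s : ℕ) (ν : Fin (2 ^ T.a)) (j : Fin J) :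
    T.accJ c (s + 1) ν j = c (s + 1) ν j + T.K * T.accJ c s ν j := T.acc_succ _ _ _

/-- the rows which are kept at level `s` -/
noncomputable def Rw (T : Tower) (c : ℕ → Fin (2 ^ T.a) → Fin J → ℝ) (Lo : ℕ → ℕ) (s : ℕ) :
    Finset (Fin (2 ^ T.a)) := if s = 0 then ∅ else Sf T c Lo (s - 1)

/-- the kept contents, accumulated -/
noncomputable def bb (T : Tower) (c : ℕ → Fin (2 ^ T.a) → Fin J → ℝ) (Lo : ℕ → ℕ) (s : ℕ)
    (ν : Fin (2 ^ T.a)) (j : Fin J) : ℝ := if ν ∈ Rw T c Lo s then T.accJ c s ν j else 0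

/-- the new contents -/
noncomputable def cc (T : Tower) (c : ℕ → Fin (2 ^ T.a) → Fin J → ℝ) (Lo : ℕ → ℕ) (s : ℕ)
    (ν : Fin (2 ^ T.a)) (j : Fin J) : ℝ :=
  bb T c Lo s ν j - (if s = 0 then 0 else T.K * bb T c Lo (s - 1) ν j)

/-- the contents put into the noise -/
noncomputable def mm (T : Tower) (c : ℕ → Fin (2 ^ T.a) → Fin J → ℝ) (Lo : ℕ → ℕ) (s : ℕ)
    (ν : Fin (2 ^ T.a)) (j : Fin J) : ℝ := T.accJ c s ν j - bb T c Lo s ν j

/-- the new noise -/
noncomputable def yy (T : Tower) (y : (s : ℕ) → Fin (T.n s) → Fin J → ℝ)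
    (c : ℕ → Fin (2 ^ T.a) → Fin J → ℝ) (Lo : ℕ → ℕ) (s : ℕ) (b : Fin (T.n s)) (j : Fin J) : ℝ :=
  y s b j + T.GM s (mm T c Lo s) b j

/-- the mass on infrequent rows -/
noncomputable def vv (T : Tower) (c : ℕ → Fin (2 ^ T.a) → Fin J → ℝ) (Lo : ℕ → ℕ) (s : ℕ) : ℝ :=
  if s = 0 then 0 else ∑ ν ∈ (Rw T c Lo s)ᶜ, ∑ j, T.accJ c (s - 1) ν j ^ 2

theorem acc_cc (c : ℕ → Fin (2 ^ T.a) → Fin J → ℝ) (Lo : ℕ → ℕ) (s : ℕ) (ν : Fin (2 ^ T.a))
    (j : Fin J) : T.acc (fun s ν => cc T c Lo s ν j) s ν = bb T c Lo s ν j := by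
  induction s with
  | zero => rw [T.acc_zero]; simp [cc]
  | succ s ih =>
    rw [T.acc_succ, ih]
    simp [cc]

theorem ev_cc (y : (s : ℕ) → Fin (T.n s) → Fin J → ℝ)
    (c : ℕ → Fin (2 ^ T.a) → Fin J → ℝ) (Lo : ℕ → ℕ) (s : ℕ) (b : Fin (T.n s)) (j : Fin J) :
    T.ev (fun s b => y s b j) (fun s ν => c s ν j) s b =
      T.ev (fun s b => yy T y c Lo s b j) (fun s ν => cc T c Lo s ν j) s b := by
  unfold Tower.ev yy Tower.GM
  simp only [acc_cc]
  rw [add_assoc, ← sum_add_distrib]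
  congr 1
  refine sum_congr rfl fun ν _ => ?_
  unfold mm Tower.accJ
  ring

theorem Rw_zero (c : ℕ → Fin (2 ^ T.a) → Fin J → ℝ) (Lo : ℕ → ℕ) : Rw T c Lo 0 = ∅ := by
  simp [Rw]

theorem hs_mm_le (c : ℕ → Fin (2 ^ T.a) → Fin J → ℝ) (Lo : ℕ → ℕ) (s : ℕ) :
    hs (mm T c Lo s) ≤ 2 * hs (c s) + 2 * (T.K : ℝ) ^ 2 * vv T c Lo s := by
  cases s with
  | zero =>
    have h1 : mm T c Lo 0 = c 0 := by
      funext ν j
      simp [mm, bb, Rw_zero, accJ_zero]
    rw [h1]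
    have := hs_nonneg (c 0)
    simp only [vv, if_true]
    linarith
  | succ s =>
    have h1 : ∀ ν j, mm T c Lo (s + 1) ν j ^ 2 ≤ 2 * c (s + 1) ν j ^ 2 +
        2 * (T.K : ℝ) ^ 2 * (if ν ∈ (Rw T c Lo (s + 1))ᶜ then T.accJ c s ν j ^ 2 else 0) := by
      intro ν j
      unfold mm bb
      by_cases h : ν ∈ Rw T c Lo (s + 1)
      · have h' : ν ∉ (Rw T c Lo (s + 1))ᶜ := by simp [h]
        rw [if_pos h, if_neg h']
        have := sq_nonneg (c (s + 1) ν j)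
        simp only [sub_self]
        nlinarith
      · have h' : ν ∈ (Rw T c Lo (s + 1))ᶜ := by simp [h]
        rw [if_neg h, if_pos h', accJ_succ]
        nlinarith [sq_nonneg (c (s + 1) ν j - T.K * T.accJ c s ν j)]
    calc hs (mm T c Lo (s + 1)) ≤ ∑ ν, ∑ j, (2 * c (s + 1) ν j ^ 2 +
        2 * (T.K : ℝ) ^ 2 * (if ν ∈ (Rw T c Lo (s + 1))ᶜ then T.accJ c s ν j ^ 2 else 0)) := by
          unfold hs
          exact sum_le_sum fun ν _ => sum_le_sum fun j _ => h1 ν j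
      _ = 2 * hs (c (s + 1)) + 2 * (T.K : ℝ) ^ 2 * vv T c Lo (s + 1) := by
          simp only [sum_add_distrib, ← mul_sum]
          congr 1
          congr 1
          simp only [vv, Nat.add_sub_cancel, if_neg (Nat.succ_ne_zero s)]
          rw [← sum_filter_add_sum_filter_not univ (fun ν => ν ∈ (Rw T c Lo (s + 1))ᶜ)]
          have e1 : ∑ x ∈ univ.filter (fun ν => ¬ ν ∈ (Rw T c Lo (s + 1))ᶜ),
              ∑ j, (if x ∈ (Rw T c Lo (s + 1))ᶜ then T.accJ c s x j ^ 2 else 0) = 0 := by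
            refine sum_eq_zero fun ν hν => ?_
            rw [mem_filter] at hν
            simp only [if_neg hν.2, sum_const_zero]
          rw [e1, add_zero, filter_mem_eq_inter, univ_inter]
          exact sum_congr rfl fun ν hν => by simp only [if_pos hν]

theorem vv_nonneg (c : ℕ → Fin (2 ^ T.a) → Fin J → ℝ) (Lo : ℕ → ℕ) (s : ℕ) :
    0 ≤ vv T c Lo s := by
  unfold vv
  split_ifs
  · exact le_rfl
  · positivity

theorem hs_cc_le (c : ℕ → Fin (2 ^ T.a) → Fin J → ℝ) (Lo : ℕ → ℕ) (s : ℕ) :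
    hs (cc T c Lo (s + 1)) ≤ 2 * hs (c (s + 1)) + 2 * (T.K : ℝ) ^ 2 * (vv T c Lo (s + 1) +
      hs (mm T c Lo s)) := by
  have h1 : ∀ ν j, cc T c Lo (s + 1) ν j ^ 2 ≤ 2 * c (s + 1) ν j ^ 2 +
      2 * (T.K : ℝ) ^ 2 * ((if ν ∈ (Rw T c Lo (s + 1))ᶜ then T.accJ c s ν j ^ 2 else 0) +
        mm T c Lo s ν j ^ 2) := by
    intro ν j
    have hcc : cc T c Lo (s + 1) ν j = (if ν ∈ Rw T c Lo (s + 1) then
        c (s + 1) ν j + T.K * T.accJ c s ν j else 0) -
        T.K * (if ν ∈ Rw T c Lo s then T.accJ c s ν j else 0) := by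
      simp only [cc, bb, accJ_succ, Nat.add_sub_cancel, if_neg (Nat.succ_ne_zero s)]
    rw [hcc]
    unfold mm bb
    have hp1 := sq_nonneg (c (s + 1) ν j)
    have hp2 : 0 ≤ (T.K : ℝ) ^ 2 * T.accJ c s ν j ^ 2 := by positivity
    by_cases h : ν ∈ Rw T c Lo (s + 1)
    · have h' : ν ∉ (Rw T c Lo (s + 1))ᶜ := by simp [h]
      by_cases h2 : ν ∈ Rw T c Lo s
      · simp only [if_pos h, if_neg h', if_pos h2]
        nlinarith
      · simp only [if_pos h, if_neg h', if_neg h2]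
        nlinarith [sq_nonneg (c (s + 1) ν j - T.K * T.accJ c s ν j)]
    · have h' : ν ∈ (Rw T c Lo (s + 1))ᶜ := by simp [h]
      by_cases h2 : ν ∈ Rw T c Lo s
      · simp only [if_neg h, if_pos h', if_pos h2]
        nlinarith
      · simp only [if_neg h, if_pos h', if_neg h2]
        nlinarith
  calc hs (cc T c Lo (s + 1)) ≤ ∑ ν, ∑ j, (2 * c (s + 1) ν j ^ 2 +
      2 * (T.K : ℝ) ^ 2 * ((if ν ∈ (Rw T c Lo (s + 1))ᶜ then T.accJ c s ν j ^ 2 else 0) +
        mm T c Lo s ν j ^ 2)) := by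
        unfold hs
        exact sum_le_sum fun ν _ => sum_le_sum fun j _ => h1 ν j
    _ = _ := by
        simp only [sum_add_distrib, ← mul_sum, hs]
        congr 1
        congr 1
        congr 1
        simp only [vv, Nat.add_sub_cancel, if_neg (Nat.succ_ne_zero s)]
        rw [← sum_filter_add_sum_filter_not univ (fun ν => ν ∈ (Rw T c Lo (s + 1))ᶜ)]
        have e1 : ∑ x ∈ univ.filter (fun ν => ¬ ν ∈ (Rw T c Lo (s + 1))ᶜ),
            ∑ j, (if x ∈ (Rw T c Lo (s + 1))ᶜ then T.accJ c s x j ^ 2 else 0) = 0 := by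
          refine sum_eq_zero fun ν hν => ?_
          rw [mem_filter] at hν
          simp only [if_neg hν.2, sum_const_zero]
        rw [e1, add_zero, filter_mem_eq_inter, univ_inter]
        exact sum_congr rfl fun ν hν => by simp only [if_pos hν]

theorem card_Rw_le {H₂ ε C₀ : ℝ} {g Γ : ℕ} (hT : T.OK H₂ ε C₀ g Γ) (hg : 4 ≤ g)
    (hJ : 1 ≤ J) (c : ℕ → Fin (2 ^ T.a) → Fin J → ℝ) (Lo r Hi : ℕ → ℕ) (B δ' : ℝ)
    (hc : T.Sparse c B) (hW : Win T c δ' Lo r Hi) (hΓ : T.top + 2 ≤ Γ) (s : ℕ)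
    (hst : s ≤ T.top) : 2 * (Rw T c Lo s).card ≤ T.k s := by
  cases s with
  | zero => simp [Rw]
  | succ s =>
    have hs : s < T.top := by omega
    have h1 := card_Sf_le hT hg hJ c Lo B hc s hs
    have hR : Rw T c Lo (s + 1) = Sf T c Lo s := by simp [Rw]
    rw [hR]
    have hk : T.top + 2 ≤ T.k s := hΓ.trans (hT.base.trans (hT.k_ge s))
    have hk1 : 1 ≤ T.k s := by omega
    have hlo := hW.lo s hs
    have hmid := hW.mid s hs
    have hhi := hW.hi s hs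
    have hup := hW.up s hs
    have h2 : T.k s ^ 4 ≤ Lo s := by
      refine le_trans ?_ hlo
      rw [hT.n_eq s hs, ← pow_mul]
      exact Nat.pow_le_pow_right hk1 (by norm_num)
    have hLo1 : 1 ≤ Lo s := le_trans (Nat.one_le_pow _ _ hk1) h2
    have h3 : 2 * (Lo s * ((T.top + 1) * T.k s ^ 2)) ≤ Lo s * T.k s ^ 4 := by
      calc 2 * (Lo s * ((T.top + 1) * T.k s ^ 2)) = Lo s * (2 * (T.top + 1) * T.k s ^ 2) := by ring
        _ ≤ Lo s * (T.k s * T.k s * T.k s ^ 2) := by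
            refine Nat.mul_le_mul_left _ (Nat.mul_le_mul_right _ ?_)
            exact Nat.mul_le_mul (by omega) (by omega)
        _ = _ := by ring
    calc 2 * (Sf T c Lo s).card ≤ 2 * (Lo s * ((T.top + 1) * T.k s ^ 2)) :=
          Nat.mul_le_mul_left _ h1
      _ ≤ Lo s * T.k s ^ 4 := h3
      _ ≤ Lo s * Lo s := Nat.mul_le_mul_left _ h2
      _ = Lo s ^ 2 := (pow_two _).symm
      _ ≤ Lo s ^ 10 := Nat.pow_le_pow_right hLo1 (by norm_num)
      _ ≤ r s := hmid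
      _ = r s ^ 1 := (pow_one _).symm
      _ ≤ r s ^ 10 := by
          refine Nat.pow_le_pow_right ?_ (by norm_num)
          exact le_trans (Nat.one_le_pow _ _ hLo1) hmid
      _ ≤ Hi s := hhi
      _ = Hi s ^ 1 := (pow_one _).symm
      _ ≤ Hi s ^ 10 := by
          refine Nat.pow_le_pow_right ?_ (by norm_num)
          refine le_trans (Nat.one_le_pow _ _ ?_) hhi
          exact le_trans (Nat.one_le_pow _ _ hLo1) hmid
      _ ≤ T.k (s + 1) := hup

theorem rho_cc_le {H₂ ε C₀ : ℝ} {g Γ : ℕ} (hT : T.OK H₂ ε C₀ g Γ) (hg : 4 ≤ g)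
    (hJ : 1 ≤ J) (c : ℕ → Fin (2 ^ T.a) → Fin J → ℝ) (Lo r Hi : ℕ → ℕ) (B δ' : ℝ)
    (hc : T.Sparse c B) (hW : Win T c δ' Lo r Hi) (hΓ : T.top + 2 ≤ Γ) (s : ℕ)
    (hst : s < T.top) :
    rho (cc T c Lo (s + 1)) ^ 2 / (T.k (s + 1) : ℝ) ≤ hs (cc T c Lo (s + 1)) := by
  have h1 := card_Rw_le hT hg hJ c Lo r Hi B δ' hc hW hΓ (s + 1) (by omega)
  have h2 := card_Rw_le hT hg hJ c Lo r Hi B δ' hc hW hΓ s (by omega)
  have hm := Run7.h163.NEG.SPARSE.k_mono hT hg (Nat.le_succ s) (show s + 1 ≤ T.top by omega)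
  have h3 : (Rw T c Lo (s + 1) ∪ Rw T c Lo s).card ≤ T.k (s + 1) := by
    have := card_union_le (Rw T c Lo (s + 1)) (Rw T c Lo s)
    simp only [Nat.succ_eq_add_one] at hm
    omega
  have hk : (0 : ℝ) < T.k (s + 1) := by
    have : 1 ≤ T.k (s + 1) := hT.one_le_a.trans (hT.k_ge _)
    exact_mod_cast this
  rw [div_le_iff₀ hk]
  have h4 := rho_sq_le (cc T c Lo (s + 1)) (Rw T c Lo (s + 1) ∪ Rw T c Lo s) (by
    intro ν hν j
    rw [mem_union, not_or] at hν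
    simp only [cc, bb, Nat.add_sub_cancel, if_neg (Nat.succ_ne_zero s), if_neg hν.1,
      if_neg hν.2, mul_zero, sub_zero])
  refine h4.trans ?_
  rw [mul_comm]
  refine mul_le_mul_of_nonneg_left ?_ (hs_nonneg _)
  exact_mod_cast h3

theorem main_MIXU : S_MIXU := by
  intro K top B hK hB
  refine ⟨24 * (top + 1) ^ 3 * K ^ (2 * top) + top + 2, ?_⟩
  intro H₂ ε C₀ g T hg hε0 hε1 hTK hTtop hT J y c Lo r Hi δ' hJ hc hW hcost
  have hg4 : 4 ≤ g := by omega
  have hK1 : 1 ≤ T.K := by omega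
  have hKr : (1 : ℝ) ≤ K := by exact_mod_cast hK
  have hJr : (1 : ℝ) ≤ J := by exact_mod_cast hJ
  have hΓ2 : T.top + 2 ≤ 24 * (top + 1) ^ 3 * K ^ (2 * top) + top + 2 := by
    rw [hTtop]; omega
  have hkpos : ∀ s, (1 : ℝ) ≤ T.k s := fun s => by exact_mod_cast hT.one_le_a.trans (hT.k_ge s)
  have hkΓ : ∀ s, 24 * ((top : ℝ) + 1) ^ 3 * (K : ℝ) ^ (2 * top) ≤ T.k s := by
    intro s
    have h1 : 24 * (top + 1) ^ 3 * K ^ (2 * top) ≤ T.k s := by
      have := hT.base.trans (hT.k_ge s)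
      omega
    exact_mod_cast h1
  refine ⟨yy T y c Lo, cc T c Lo, fun s _ b j => ev_cc y c Lo s b j, ?_⟩
  -- total cost
  have htot : ∑ s ∈ range (T.top + 1), hs (y s) + ∑ s ∈ range (T.top + 1), hs (c s) ≤ 3 * J := by
    have h1 := cost_split y c
    have h2 : ∑ j, T.cost (fun s b => y s b j) (fun s ν => c s ν j) ≤ 3 * J := by
      calc _ ≤ ∑ j : Fin J, (3 : ℝ) := sum_le_sum fun j _ => hcost j
        _ = 3 * J := by simp [mul_comm]
    rw [h1, sum_add_distrib, sum_add_distrib] at h2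
    have h3 : 0 ≤ ∑ s ∈ range (T.top + 1), ∑ j, (∑ ν, |c s ν j|) ^ 2 / (T.k s : ℝ) := by
      refine sum_nonneg fun s _ => sum_nonneg fun j _ => ?_
      have := hkpos s
      positivity
    linarith
  -- the noise
  have hG : ∀ s ≤ T.top, hs (T.GM s (mm T c Lo s)) ≤ 2 * hs (mm T c Lo s) + J / (top + 1) := by
    intro s hst
    have h1 := hsGM_le hT hε1.le s hst (mm T c Lo s)
    have h2 : ∑ j, (∑ ν, |mm T c Lo s ν j|) ^ 2 ≤
        J * (((top + 1) * (K : ℝ) ^ top) ^ 2 * (3 * T.k s)) := by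
      calc ∑ j, (∑ ν, |mm T c Lo s ν j|) ^ 2
          ≤ ∑ j : Fin J, (((top + 1) * (K : ℝ) ^ top) ^ 2 * (3 * T.k s)) := by
            refine sum_le_sum fun j _ => ?_
            have h3 := acc_l1_le hT hg4 hK1 (fun s b => y s b j) (fun s ν => c s ν j) 3
              (hcost j) s hst
            rw [hTK, hTtop] at h3
            refine le_trans ?_ h3
            refine pow_le_pow_left₀ (sum_nonneg fun _ _ => abs_nonneg _) ?_ 2
            refine sum_le_sum fun ν _ => ?_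
            unfold mm bb
            split_ifs
            · rw [sub_self, abs_zero]; exact abs_nonneg _
            · rw [sub_zero]; exact le_rfl
        _ = _ := by simp
    have hk := hkpos s
    have hk2 := hkΓ s
    have h4 : 8 / (T.k s : ℝ) ^ 2 * ∑ j, (∑ ν, |mm T c Lo s ν j|) ^ 2 ≤ J / (top + 1) := by
      calc 8 / (T.k s : ℝ) ^ 2 * ∑ j, (∑ ν, |mm T c Lo s ν j|) ^ 2
          ≤ 8 / (T.k s : ℝ) ^ 2 * (J * (((top + 1) * (K : ℝ) ^ top) ^ 2 * (3 * T.k s))) := by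
            gcongr
        _ = J * (24 * ((top : ℝ) + 1) ^ 2 * (K : ℝ) ^ (2 * top)) / T.k s := by
            rw [pow_mul']
            field_simp
            ring
        _ ≤ J / (top + 1) := by
            rw [div_le_div_iff₀ (by linarith) (by positivity)]
            calc (J : ℝ) * (24 * ((top : ℝ) + 1) ^ 2 * (K : ℝ) ^ (2 * top)) * ((top : ℝ) + 1)
                = (J : ℝ) * (24 * ((top : ℝ) + 1) ^ 3 * (K : ℝ) ^ (2 * top)) := by ring
              _ ≤ (J : ℝ) * (T.k s : ℝ) := mul_le_mul_of_nonneg_left hk2 (by positivity)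
    linarith
  have hyy : ∀ s ≤ T.top, hs (yy T y c Lo s) ≤ 2 * hs (y s) + 4 * hs (mm T c Lo s) +
      2 * (J / (top + 1)) := by
    intro s hst
    have h1 := hs_add_le (y s) (T.GM s (mm T c Lo s))
    have h2 := hG s hst
    have h3 : hs (yy T y c Lo s) = hs (fun b j => y s b j + T.GM s (mm T c Lo s) b j) := rfl
    rw [h3]
    linarith
  set Y := ∑ s ∈ range (T.top + 1), hs (y s) with hY
  set C := ∑ s ∈ range (T.top + 1), hs (c s) with hC
  set M := ∑ s ∈ range (T.top + 1), hs (mm T c Lo s) with hM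
  set V := ∑ i ∈ range top, usq T c Lo i * J with hV
  have hY0 : 0 ≤ Y := sum_nonneg fun s _ => hs_nonneg _
  have hC0 : 0 ≤ C := sum_nonneg fun s _ => hs_nonneg _
  have hVv : ∑ s ∈ range T.top, vv T c Lo (s + 1) = V := by
    rw [hV, hTtop]
    refine sum_congr rfl fun s _ => ?_
    have hJ0 : (J : ℝ) ≠ 0 := by linarith
    simp only [vv, usq, Rw, Nat.add_sub_cancel, if_neg (Nat.succ_ne_zero s)]
    rw [div_mul_cancel₀ _ hJ0]
  have hVv2 : ∑ s ∈ range (T.top + 1), vv T c Lo s = V := by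
    rw [sum_range_succ', hVv]
    simp [vv]
  have hV0 : 0 ≤ V := by
    rw [← hVv]
    exact sum_nonneg fun s _ => vv_nonneg _ _ _
  have hM1 : M ≤ 2 * C + 2 * (K : ℝ) ^ 2 * V := by
    rw [← hVv2, hM, hC, mul_sum, mul_sum, ← sum_add_distrib]
    refine sum_le_sum fun s _ => ?_
    have := hs_mm_le c Lo s
    rw [hTK] at this
    exact this
  have e1 : ∑ s ∈ range (T.top + 1), hs (yy T y c Lo s) ≤ 2 * Y + 4 * M + 2 * J := by
    calc _ ≤ ∑ s ∈ range (T.top + 1), (2 * hs (y s) + 4 * hs (mm T c Lo s) +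
          2 * ((J : ℝ) / (top + 1))) := sum_le_sum fun s hs' => hyy s (by simp at hs'; omega)
      _ = 2 * Y + 4 * M + 2 * J := by
          have h5 : ((T.top + 1 : ℕ) : ℝ) * (2 * ((J : ℝ) / (top + 1))) = 2 * J := by
            rw [hTtop]
            push_cast
            field_simp
          rw [sum_add_distrib, sum_add_distrib, ← mul_sum, ← mul_sum, sum_const, card_range,
            nsmul_eq_mul, h5]
  have e2 : ∑ s ∈ range (T.top + 1), (hs (cc T c Lo s) + rho (cc T c Lo s) ^ 2 / (T.k s : ℝ)) ≤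
      4 * C + 4 * (K : ℝ) ^ 2 * (V + M) := by
    rw [sum_range_succ']
    have h0 : cc T c Lo 0 = fun _ _ => 0 := by
      funext ν j
      simp [cc, bb, Rw_zero]
    have h00 : hs (cc T c Lo 0) + rho (cc T c Lo 0) ^ 2 / (T.k 0 : ℝ) = 0 := by
      rw [h0]; simp [hs, rho]
    rw [h00, add_zero]
    calc _ ≤ ∑ s ∈ range T.top, (4 * hs (c (s + 1)) + 4 * (K : ℝ) ^ 2 * (vv T c Lo (s + 1) +
          hs (mm T c Lo s))) := by
          refine sum_le_sum fun s hs' => ?_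
          have h1 := rho_cc_le hT hg4 hJ c Lo r Hi B δ' hc hW hΓ2 s (by simpa using hs')
          have h2 := hs_cc_le c Lo s
          rw [hTK] at h2
          linarith
      _ = 4 * ∑ s ∈ range T.top, hs (c (s + 1)) + 4 * (K : ℝ) ^ 2 * (V +
          ∑ s ∈ range T.top, hs (mm T c Lo s)) := by
          rw [sum_add_distrib, ← mul_sum, ← mul_sum, sum_add_distrib, hVv]
      _ ≤ _ := by
          have h1 : ∑ s ∈ range T.top, hs (c (s + 1)) ≤ C := by
            rw [hC, sum_range_succ']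
            have := hs_nonneg (c 0)
            linarith
          have h2 : ∑ s ∈ range T.top, hs (mm T c Lo s) ≤ M := by
            rw [hM, sum_range_succ]
            have := hs_nonneg (mm T c Lo T.top)
            linarith
          gcongr
  have e3 : T.mc (yy T y c Lo) (cc T c Lo) = ∑ s ∈ range (T.top + 1), hs (yy T y c Lo s) +
      ∑ s ∈ range (T.top + 1), (hs (cc T c Lo s) + rho (cc T c Lo s) ^ 2 / (T.k s : ℝ)) := by
    rw [mc_eq, ← sum_add_distrib]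
    exact sum_congr rfl fun s _ => by ring
  have e4 : 100 * ((K : ℝ) ^ 2 + (K : ℝ) ^ 4 * ∑ i ∈ range top, usq T c Lo i) * J =
      100 * (K : ℝ) ^ 2 * J + 100 * (K : ℝ) ^ 4 * V := by
    rw [hV, ← sum_mul]
    ring
  rw [e3, e4]
  have hK2 : (1 : ℝ) ≤ (K : ℝ) ^ 2 := one_le_pow₀ hKr
  have hK4 : (K : ℝ) ^ 2 ≤ (K : ℝ) ^ 4 := pow_le_pow_right₀ hKr (by norm_num)
  have hM0 : 0 ≤ M := sum_nonneg fun s _ => hs_nonneg _
  have f1 : (4 + 4 * (K : ℝ) ^ 2) * M ≤ (4 + 4 * (K : ℝ) ^ 2) * (2 * C + 2 * (K : ℝ) ^ 2 * V) :=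
    mul_le_mul_of_nonneg_left hM1 (by positivity)
  have f2 : (K : ℝ) ^ 2 * C ≤ (K : ℝ) ^ 2 * (3 * J) := mul_le_mul_of_nonneg_left (by linarith)
    (by positivity)
  have f3 : (K : ℝ) ^ 2 * V ≤ (K : ℝ) ^ 4 * V := mul_le_mul_of_nonneg_right hK4 hV0
  have f4 : (J : ℝ) ≤ (K : ℝ) ^ 2 * J := by nlinarith
  have f5 : (K : ℝ) ^ 2 * ((K : ℝ) ^ 2 * V) = (K : ℝ) ^ 4 * V := by ring
  have f6 : 0 ≤ (K : ℝ) ^ 4 * V := by positivity
  nlinarith

end Run7.h778.NEG
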