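import Pool.Agent.Run7.h778.NEG.MIXU

/-!
# Piece UPB for helper35's project (`MP_6c92e3_an`)

The upper bound for the mixed norms of `w - λ z` by an explicit representation.
-/

set_option autoImplicit false

namespace Run7.h778.NEG

open Finset Module Classical Run7.h35.NEG

variable {T : Tower} {J : ℕ}

section signs

theorem sg_mul_self (b : Bool) : sg b * sg b = 1 := by cases b <;> simp [sg]

theorem sg_not (b : Bool) : sg (!b) = - sg b := by cases b <;> simp [sg]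

theorem sum_sg_mul {r : ℕ} (i j : Fin r) :
    ∑ e : Fin r → Bool, sg (e i) * sg (e j) = if i = j then (2 : ℝ) ^ r else 0 := by
  split_ifs with h
  · subst h
    simp [sg_mul_self]
  · have hinv : Function.Involutive (fun e : Fin r → Bool => Function.update e i (!(e i))) := by
      intro e
      simp
    have h1 : ∑ e : Fin r → Bool, sg (e i) * sg (e j) =
        ∑ e : Fin r → Bool, - (sg (e i) * sg (e j)) := by
      rw [← Equiv.sum_comp hinv.toPerm (fun e : Fin r → Bool => sg (e i) * sg (e j))]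
      refine sum_congr rfl fun e _ => ?_
      simp only [Function.Involutive.coe_toPerm, Function.update_self, sg_not]
      rw [Function.update_of_ne (Ne.symm h)]
      ring
    rw [sum_neg_distrib] at h1
    linarith

theorem sum_sg_sq {r : ℕ} (x : Fin r → ℝ) :
    ∑ e : Fin r → Bool, (∑ j, sg (e j) * x j) ^ 2 = 2 ^ r * ∑ j, x j ^ 2 := by
  calc ∑ e : Fin r → Bool, (∑ j, sg (e j) * x j) ^ 2
      = ∑ e : Fin r → Bool, ∑ i, ∑ j, (sg (e i) * sg (e j)) * (x i * x j) := by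
        refine sum_congr rfl fun e _ => ?_
        rw [pow_two, sum_mul_sum]
        exact sum_congr rfl fun i _ => sum_congr rfl fun j _ => by ring
    _ = ∑ i, ∑ j, (∑ e : Fin r → Bool, sg (e i) * sg (e j)) * (x i * x j) := by
        rw [sum_comm]
        refine sum_congr rfl fun i _ => ?_
        rw [sum_comm]
        refine sum_congr rfl fun j _ => ?_
        rw [sum_mul]
    _ = 2 ^ r * ∑ j, x j ^ 2 := by
        simp only [sum_sg_mul, ite_mul, zero_mul]
        rw [mul_sum]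
        refine sum_congr rfl fun i _ => ?_
        simp [pow_two]

theorem mixR_signA {r : ℕ} (V : Submodule ℝ (Fin r → ℝ)) (x : Fin r → ℝ) (e : Fin r → Bool) :
    mixR (signA V) x e = (∑ j, sg (e j) * proj V x j) / Real.sqrt (2 ^ r) := by
  unfold mixR signA
  rw [← proj_symm V (fun t => sg (e t)) x, sum_div]
  exact sum_congr rfl fun j _ => by ring

theorem sum_mixR_signA {r : ℕ} (V : Submodule ℝ (Fin r → ℝ)) (x : Fin r → ℝ) :
    ∑ e, mixR (signA V) x e ^ 2 = ∑ j, proj V x j ^ 2 := by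
  have h2 : (0 : ℝ) < 2 ^ r := by positivity
  simp only [mixR_signA, div_pow, Real.sq_sqrt h2.le]
  rw [← sum_div, sum_sg_sq, mul_div_cancel_left₀ _ h2.ne']

theorem contr_signA {r : ℕ} (V : Submodule ℝ (Fin r → ℝ)) : Contr (signA V) := by
  intro w
  have h := sum_mixR_signA V w
  unfold mixR at h
  rw [h]
  exact proj_norm_le V w

theorem signA_mem {r : ℕ} (V : Submodule ℝ (Fin r → ℝ)) (e : Fin r → Bool) : signA V e ∈ V := by
  have h : signA V e = (Real.sqrt (2 ^ r))⁻¹ • proj V (fun t => sg (e t)) := by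
    funext j
    simp only [signA, Pi.smul_apply, smul_eq_mul]
    ring
  rw [h]
  exact V.smul_mem _ (proj_mem V _)

end signs

section comb

variable {ι κ : Type} [Fintype ι] [Fintype κ]

theorem hs_comb (p q : ℝ) (M M' : ι → κ → ℝ) :
    hs (fun b j => p * M b j - q * M' b j) ≤ 2 * p ^ 2 * hs M + 2 * q ^ 2 * hs M' := by
  unfold hs
  simp only [mul_sum, ← sum_add_distrib]
  refine sum_le_sum fun b _ => sum_le_sum fun j _ => ?_
  nlinarith [sq_nonneg (p * M b j + q * M' b j)]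

theorem rho_smul (p : ℝ) (M : ι → κ → ℝ) : rho (fun b j => p * M b j) = |p| * rho M := by
  simp only [rho, mul_sum]
  refine sum_congr rfl fun b _ => ?_
  have : ∑ j, (p * M b j) ^ 2 = p ^ 2 * ∑ j, M b j ^ 2 := by
    simp only [mul_sum, mul_pow]
  rw [this, Real.sqrt_mul (sq_nonneg p), Real.sqrt_sq_eq_abs]

theorem rho_comb (p q : ℝ) (M M' : ι → κ → ℝ) :
    rho (fun b j => p * M b j - q * M' b j) ^ 2 ≤ 2 * p ^ 2 * rho M ^ 2 +
      2 * q ^ 2 * rho M' ^ 2 := by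
  have h1 := rho_add_le (fun b j => p * M b j) (fun b j => (-q) * M' b j)
  rw [rho_smul, rho_smul, abs_neg] at h1
  have h2 : (fun b j => p * M b j - q * M' b j) = fun b j => p * M b j + (-q) * M' b j := by
    funext b j; ring
  rw [h2]
  have h3 := pow_le_pow_left₀ (rho_nonneg _) h1 2
  have h4 : (|p| * rho M + |q| * rho M') ^ 2 ≤ 2 * (|p| * rho M) ^ 2 + 2 * (|q| * rho M') ^ 2 := by
    nlinarith [sq_nonneg (|p| * rho M - |q| * rho M')]
  rw [mul_pow, mul_pow, sq_abs, sq_abs] at h4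
  linarith

end comb

/-- accumulated contents of `w - λ z` -/
noncomputable def DD (T : Tower) (i : ℕ) (lam : ℝ) (c c' : ℕ → Fin (2 ^ T.a) → Fin J → ℝ) (s : ℕ)
    (ν : Fin (2 ^ T.a)) (j : Fin J) : ℝ :=
  if s ≤ i then 0 else T.K * T.accJ c' (s - 1) ν j - lam * T.accJ c s ν j

/-- contents of `w - λ z` -/
noncomputable def dd (T : Tower) (i : ℕ) (lam : ℝ) (c c' : ℕ → Fin (2 ^ T.a) → Fin J → ℝ) (s : ℕ)
    (ν : Fin (2 ^ T.a)) (j : Fin J) : ℝ :=
  DD T i lam c c' s ν j - (if s = 0 then 0 else T.K * DD T i lam c c' (s - 1) ν j)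

theorem acc_dd (i : ℕ) (lam : ℝ) (c c' : ℕ → Fin (2 ^ T.a) → Fin J → ℝ) (s : ℕ)
    (ν : Fin (2 ^ T.a)) (j : Fin J) :
    T.acc (fun s ν => dd T i lam c c' s ν j) s ν = DD T i lam c c' s ν j := by
  induction s with
  | zero => rw [T.acc_zero]; simp [dd]
  | succ s ih =>
    rw [T.acc_succ, ih]
    simp [dd]

theorem dd_le (i : ℕ) (lam : ℝ) (c c' : ℕ → Fin (2 ^ T.a) → Fin J → ℝ) (s : ℕ) (hs : s ≤ i)
    (ν : Fin (2 ^ T.a)) (j : Fin J) : dd T i lam c c' s ν j = 0 := by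
  unfold dd DD
  have h2 : s - 1 ≤ i := by omega
  simp [hs, h2]

theorem accJ_first (i : ℕ) (c : ℕ → Fin (2 ^ T.a) → Fin J → ℝ) (hc : ∀ s < i, c s = 0)
    (ν : Fin (2 ^ T.a)) (j : Fin J) : T.accJ c i ν j = c i ν j := by
  unfold Tower.accJ Tower.acc
  rw [sum_range_succ, sum_eq_zero, zero_add]
  · simp
  · intro s hs
    beta_reduce
    rw [hc s (mem_range.1 hs)]
    simp

theorem dd_first (i : ℕ) (lam : ℝ) (c c' : ℕ → Fin (2 ^ T.a) → Fin J → ℝ)
    (hc : ∀ s < i, c s = 0) (ν : Fin (2 ^ T.a)) (j : Fin J) :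
    dd T i lam c c' (i + 1) ν j = T.K * (T.accJ c' i ν j - lam * c i ν j) -
      lam * c (i + 1) ν j := by
  unfold dd DD
  have h1 : ¬ (i + 1 ≤ i) := by omega
  simp only [h1, if_false, Nat.add_sub_cancel, le_refl, if_true, mul_zero, ite_self, sub_zero]
  rw [accJ_succ, accJ_first i c hc]
  ring

theorem dd_later (i : ℕ) (lam : ℝ) (c c' : ℕ → Fin (2 ^ T.a) → Fin J → ℝ) (s : ℕ)
    (hs : i < s) (ν : Fin (2 ^ T.a)) (j : Fin J) :
    dd T i lam c c' (s + 1) ν j = T.K * c' s ν j - lam * c (s + 1) ν j := by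
  obtain ⟨s, rfl⟩ : ∃ t, s = t + 1 := ⟨s - 1, by omega⟩
  unfold dd DD
  have h1 : ¬ (s + 1 + 1 ≤ i) := by omega
  have h2 : ¬ (s + 1 ≤ i) := by omega
  have h3 : s + 1 + 1 ≠ 0 := by omega
  simp only [h1, h2, h3, if_false, Nat.add_sub_cancel]
  rw [accJ_succ c' s, accJ_succ c (s + 1)]
  ring

/-- the number of nonzero rows of sparse contents -/
theorem card_rows_le (q : ℕ) (M : Fin (2 ^ T.a) → Fin J → ℝ)
    (hM : ∀ j, (univ.filter (fun ν => M ν j ≠ 0)).card ≤ q) :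
    (univ.filter (fun ν => ∃ j, M ν j ≠ 0)).card ≤ J * q := by
  have h1 : univ.filter (fun ν => ∃ j, M ν j ≠ 0) ⊆
      (univ : Finset (Fin J)).biUnion (fun j => univ.filter (fun ν => M ν j ≠ 0)) := by
    intro ν hν
    simp only [mem_filter, mem_univ, true_and] at hν
    simpa using hν
  refine (card_le_card h1).trans (card_biUnion_le.trans ?_)
  calc ∑ j : Fin J, (univ.filter (fun ν => M ν j ≠ 0)).card ≤ ∑ j : Fin J, q :=
        sum_le_sum fun j _ => hM j
    _ = J * q := by simp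

section main

variable {E : Type} [NormedAddCommGroup E] [NormedSpace ℝ E] (X : TowerSpace T E)

/-- the noise of `w - λ z` -/
noncomputable def YY (i : ℕ) (lam : ℝ) (w : Fin J → E) (y y' : (s : ℕ) → Fin (T.n s) → Fin J → ℝ)
    (c' : ℕ → Fin (2 ^ T.a) → Fin J → ℝ) (s : ℕ) (b : Fin (T.n s)) (j : Fin J) : ℝ :=
  if s ≤ i then X.lev s (w j) b else y' s b j + T.GM s (c' s) b j - lam * y s b j

theorem rep_mixed {i : ℕ} {lam : ℝ} {z w : Fin J → E}
    {y y' : (s : ℕ) → Fin (T.n s) → Fin J → ℝ} {c c' : ℕ → Fin (2 ^ T.a) → Fin J → ℝ}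
    (V : Submodule ℝ (Fin J → ℝ)) (hz : X.Rep z y c) (hw : X.Rep w y' c')
    (hV : ∀ v ∈ V, ∀ s ≤ i, X.lev s (∑ j, v j • z j) = 0) :
    X.Rep (mixE (signA V) (fun j => w j - lam • z j))
      (fun s b => mixR (signA V) (YY X i lam w y y' c' s b))
      (fun s ν => mixR (signA V) (dd T i lam c c' s ν)) := by
  intro s hs b e
  have h1 := T.ev_sum (signA V e) (YY X i lam w y y' c') (dd T i lam c c') s b
  have h2 : X.lev s (mixE (signA V) (fun j => w j - lam • z j) e) b =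
      ∑ j, signA V e j * (X.lev s (w j) b - lam * X.lev s (z j) b) := by
    unfold mixE
    rw [map_sum, Finset.sum_apply]
    refine sum_congr rfl fun j _ => ?_
    simp
  rw [h2]
  unfold mixR
  rw [h1]
  have h3 : ∀ j, T.ev (fun s b => YY X i lam w y y' c' s b j)
      (fun s ν => dd T i lam c c' s ν j) s b = YY X i lam w y y' c' s b j +
        ∑ ν, T.G s b ν * DD T i lam c c' s ν j := by
    intro j
    unfold Tower.ev
    simp only [acc_dd]
  simp only [h3]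
  by_cases hsi : s ≤ i
  · have h4 : ∑ j, signA V e j * X.lev s (z j) b = 0 := by
      have h5 := hV _ (signA_mem V e) s hsi
      have h6 := congrFun h5 b
      rw [map_sum, Finset.sum_apply] at h6
      simpa using h6
    have h7 : ∑ j, signA V e j * (X.lev s (w j) b - lam * X.lev s (z j) b) =
        ∑ j, signA V e j * X.lev s (w j) b - lam * ∑ j, signA V e j * X.lev s (z j) b := by
      rw [mul_sum, ← sum_sub_distrib]
      exact sum_congr rfl fun j _ => by ring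
    rw [h7, h4, mul_zero, sub_zero]
    refine sum_congr rfl fun j _ => ?_
    simp [YY, DD, hsi]
  · refine sum_congr rfl fun j _ => ?_
    congr 1
    obtain ⟨s, rfl⟩ : ∃ t, s = t + 1 := ⟨s - 1, by omega⟩
    rw [hz (s + 1) hs b j, hw (s + 1) hs b j]
    simp only [YY, DD, hsi, if_false, Tower.ev, Tower.GM, Nat.add_sub_cancel]
    have e1 : ∑ ν, T.G (s + 1) b ν * T.acc (fun s ν => c' s ν j) (s + 1) ν =
        ∑ ν, T.G (s + 1) b ν * c' (s + 1) ν j +
          ∑ ν, T.G (s + 1) b ν * (T.K * T.accJ c' s ν j) := by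
      rw [← sum_add_distrib]
      refine sum_congr rfl fun ν _ => ?_
      rw [T.acc_succ]
      unfold Tower.accJ
      ring
    have e2 : ∑ ν, T.G (s + 1) b ν * (T.K * T.accJ c' s ν j - lam * T.accJ c (s + 1) ν j) =
        ∑ ν, T.G (s + 1) b ν * (T.K * T.accJ c' s ν j) -
          lam * ∑ ν, T.G (s + 1) b ν * T.acc (fun s ν => c s ν j) (s + 1) ν := by
      rw [mul_sum, ← sum_sub_distrib]
      refine sum_congr rfl fun ν _ => ?_
      unfold Tower.accJ
      ring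
    rw [e1, e2]
    ring

/-- the contents at level `i + 1` -/
theorem first_le {i : ℕ} {lam : ℝ} (hlam : |lam| ≤ 1) {c c' : ℕ → Fin (2 ^ T.a) → Fin J → ℝ}
    (V : Submodule ℝ (Fin J → ℝ)) (S : Finset (Fin (2 ^ T.a))) (hc : ∀ s < i, c s = 0)
    (hS : ∀ v ∈ V, ∀ ν ∈ S, ∑ j, T.accJ c' i ν j * v j = 0)
    (W : Finset (Fin (2 ^ T.a))) (hW1 : ∀ ν, ν ∉ W → ∀ j, c i ν j = 0)
    (hW2 : ∀ ν, ν ∉ W → ∀ j, T.accJ c' i ν j = 0) (hWk : W.card ≤ T.k (i + 1))
    (hk : 1 ≤ T.k (i + 1)) :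
    hs (fun ν => mixR (signA V) (dd T i lam c c' (i + 1) ν)) +
      rho (fun ν => mixR (signA V) (dd T i lam c c' (i + 1) ν)) ^ 2 / (T.k (i + 1) : ℝ) ≤
    4 * (T.K : ℝ) ^ 2 * (∑ ν ∈ Sᶜ, ∑ j, (T.accJ c' i ν j - lam * c i ν j) ^ 2 +
          ∑ ν ∈ S, ∑ j, c i ν j ^ 2) + 2 * hs (c (i + 1)) +
      2 * (rho (c (i + 1)) ^ 2 / (T.k (i + 1) : ℝ)) := by
  set D : Fin (2 ^ T.a) → (Fin J → Bool) → ℝ :=
    fun ν => mixR (signA V) (fun j => T.accJ c' i ν j - lam * c i ν j) with hD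
  set Q := ∑ ν ∈ Sᶜ, ∑ j, (T.accJ c' i ν j - lam * c i ν j) ^ 2 +
          ∑ ν ∈ S, ∑ j, c i ν j ^ 2 with hQ
  have hlam2 : lam ^ 2 ≤ 1 := by
    rw [← sq_abs]
    exact pow_le_one₀ (abs_nonneg _) hlam
  have hA := contr_signA V
  have hk' : (1 : ℝ) ≤ T.k (i + 1) := by exact_mod_cast hk
  have e1 : (fun ν => mixR (signA V) (dd T i lam c c' (i + 1) ν)) =
      fun ν e => T.K * D ν e - lam * (fun ν => mixR (signA V) (c (i + 1) ν)) ν e := by
    funext ν e
    simp only [hD, mixR, mul_sum, ← sum_sub_distrib]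
    refine sum_congr rfl fun j _ => ?_
    rw [dd_first i lam c c' hc]
    ring
  have hDQ : hs D ≤ Q := by
    rw [hQ, add_comm]
    unfold hs
    rw [← sum_add_sum_compl S]
    refine add_le_add (sum_le_sum fun ν hν => ?_) (sum_le_sum fun ν _ => hA _)
    have h1 : ∀ e, D ν e = - lam * mixR (signA V) (c i ν) e := by
      intro e
      have h2 := hS _ (signA_mem V e) ν hν
      simp only [hD, mixR]
      have h3 : ∑ j, signA V e j * (T.accJ c' i ν j - lam * c i ν j) =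
          ∑ j, T.accJ c' i ν j * signA V e j - lam * ∑ j, signA V e j * c i ν j := by
        rw [mul_sum, ← sum_sub_distrib]
        exact sum_congr rfl fun j _ => by ring
      rw [h3, h2]
      ring
    calc ∑ e, D ν e ^ 2 = lam ^ 2 * ∑ e, mixR (signA V) (c i ν) e ^ 2 := by
          rw [mul_sum]
          exact sum_congr rfl fun e _ => by rw [h1]; ring
      _ ≤ lam ^ 2 * ∑ j, c i ν j ^ 2 := mul_le_mul_of_nonneg_left (hA (c i ν)) (sq_nonneg _)
      _ ≤ 1 * ∑ j, c i ν j ^ 2 := mul_le_mul_of_nonneg_right hlam2 (by positivity)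
      _ = _ := one_mul _
  have hDrho : rho D ^ 2 / (T.k (i + 1) : ℝ) ≤ Q := by
    rw [div_le_iff₀ (by linarith)]
    have h1 := rho_sq_le D W (by
      intro ν hν e
      simp only [hD, mixR]
      refine sum_eq_zero fun j _ => ?_
      rw [hW1 ν hν j, hW2 ν hν j]
      ring)
    have hQ0 : 0 ≤ Q := (hs_nonneg D).trans hDQ
    calc rho D ^ 2 ≤ W.card * hs D := h1
      _ ≤ T.k (i + 1) * Q := by
          refine mul_le_mul (by exact_mod_cast hWk) hDQ (hs_nonneg _) (Nat.cast_nonneg _)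
      _ = _ := mul_comm _ _
  rw [e1]
  have f1 := hs_comb (T.K : ℝ) lam D (fun ν => mixR (signA V) (c (i + 1) ν))
  have f2 := rho_comb (T.K : ℝ) lam D (fun ν => mixR (signA V) (c (i + 1) ν))
  have g1 := hs_mix_le hA (c (i + 1))
  have g2 := rho_mix_le hA (c (i + 1))
  have g3 := pow_le_pow_left₀ (rho_nonneg _) g2 2
  have f3 := div_le_div_of_nonneg_right f2 (Nat.cast_nonneg (T.k (i + 1)) : (0:ℝ) ≤ _)
  have g4 := div_le_div_of_nonneg_right g3 (Nat.cast_nonneg (T.k (i + 1)) : (0:ℝ) ≤ _)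
  have g5 : (2 * (T.K : ℝ) ^ 2 * rho D ^ 2 +
      2 * lam ^ 2 * rho (fun ν => mixR (signA V) (c (i + 1) ν)) ^ 2) / (T.k (i + 1) : ℝ) =
      2 * (T.K : ℝ) ^ 2 * (rho D ^ 2 / (T.k (i + 1) : ℝ)) +
        2 * (lam ^ 2 * (rho (fun ν => mixR (signA V) (c (i + 1) ν)) ^ 2 /
          (T.k (i + 1) : ℝ))) := by ring
  rw [g5] at f3
  have h1 : 2 * (T.K : ℝ) ^ 2 * hs D ≤ 2 * (T.K : ℝ) ^ 2 * Q :=
    mul_le_mul_of_nonneg_left hDQ (by positivity)
  have h2 : 2 * (T.K : ℝ) ^ 2 * (rho D ^ 2 / (T.k (i + 1) : ℝ)) ≤ 2 * (T.K : ℝ) ^ 2 * Q :=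
    mul_le_mul_of_nonneg_left hDrho (by positivity)
  have h3 : lam ^ 2 * hs (fun ν => mixR (signA V) (c (i + 1) ν)) ≤ 1 * hs (c (i + 1)) :=
    mul_le_mul hlam2 g1 (hs_nonneg _) zero_le_one
  have h4 : lam ^ 2 * (rho (fun ν => mixR (signA V) (c (i + 1) ν)) ^ 2 / (T.k (i + 1) : ℝ)) ≤
      1 * (rho (c (i + 1)) ^ 2 / (T.k (i + 1) : ℝ)) :=
    mul_le_mul hlam2 g4 (by positivity) zero_le_one
  linarith

/-- the contents at level `s + 1`, `s > i` -/
theorem later_le {i s : ℕ} (his : i < s) {lam : ℝ} (hlam : |lam| ≤ 1)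
    {c c' : ℕ → Fin (2 ^ T.a) → Fin J → ℝ} (V : Submodule ℝ (Fin J → ℝ))
    (W : Finset (Fin (2 ^ T.a))) (hW : ∀ ν, ν ∉ W → ∀ j, c' s ν j = 0)
    (hWk : W.card ≤ T.k (s + 1)) (hk : 1 ≤ T.k (s + 1)) :
    hs (fun ν => mixR (signA V) (dd T i lam c c' (s + 1) ν)) +
      rho (fun ν => mixR (signA V) (dd T i lam c c' (s + 1) ν)) ^ 2 / (T.k (s + 1) : ℝ) ≤
    4 * (T.K : ℝ) ^ 2 * hs (c' s) + 2 * hs (c (s + 1)) +
      2 * (rho (c (s + 1)) ^ 2 / (T.k (s + 1) : ℝ)) := by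
  have hlam2 : lam ^ 2 ≤ 1 := by
    rw [← sq_abs]
    exact pow_le_one₀ (abs_nonneg _) hlam
  have hA := contr_signA V
  have hk' : (1 : ℝ) ≤ T.k (s + 1) := by exact_mod_cast hk
  have e1 : dd T i lam c c' (s + 1) = fun ν j => T.K * c' s ν j - lam * c (s + 1) ν j := by
    funext ν j
    exact dd_later i lam c c' s his ν j
  have f1 := hs_comb (T.K : ℝ) lam (c' s) (c (s + 1))
  have f2 := rho_comb (T.K : ℝ) lam (c' s) (c (s + 1))
  have g1 := hs_mix_le hA (dd T i lam c c' (s + 1))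
  have g2 := rho_mix_le hA (dd T i lam c c' (s + 1))
  have g3 := pow_le_pow_left₀ (rho_nonneg _) g2 2
  rw [e1] at g1 g3 ⊢
  have h5 : rho (c' s) ^ 2 / (T.k (s + 1) : ℝ) ≤ hs (c' s) := by
    rw [div_le_iff₀ (by linarith)]
    calc rho (c' s) ^ 2 ≤ W.card * hs (c' s) := rho_sq_le (c' s) W hW
      _ ≤ T.k (s + 1) * hs (c' s) :=
          mul_le_mul_of_nonneg_right (by exact_mod_cast hWk) (hs_nonneg _)
      _ = _ := mul_comm _ _
  have g4 := div_le_div_of_nonneg_right (g3.trans f2)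
    (Nat.cast_nonneg (T.k (s + 1)) : (0:ℝ) ≤ _)
  have g5 : (2 * (T.K : ℝ) ^ 2 * rho (c' s) ^ 2 + 2 * lam ^ 2 * rho (c (s + 1)) ^ 2) /
      (T.k (s + 1) : ℝ) = 2 * (T.K : ℝ) ^ 2 * (rho (c' s) ^ 2 / (T.k (s + 1) : ℝ)) +
        2 * (lam ^ 2 * (rho (c (s + 1)) ^ 2 / (T.k (s + 1) : ℝ))) := by ring
  rw [g5] at g4
  have h2 : 2 * (T.K : ℝ) ^ 2 * (rho (c' s) ^ 2 / (T.k (s + 1) : ℝ)) ≤
      2 * (T.K : ℝ) ^ 2 * hs (c' s) := mul_le_mul_of_nonneg_left h5 (by positivity)
  have h3 : lam ^ 2 * hs (c (s + 1)) ≤ 1 * hs (c (s + 1)) :=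
    mul_le_mul_of_nonneg_right hlam2 (hs_nonneg _)
  have h4 : lam ^ 2 * (rho (c (s + 1)) ^ 2 / (T.k (s + 1) : ℝ)) ≤
      1 * (rho (c (s + 1)) ^ 2 / (T.k (s + 1) : ℝ)) :=
    mul_le_mul_of_nonneg_right hlam2 (by positivity)
  linarith

theorem card_acc_le {H₂ ε C₀ : ℝ} {g Γ : ℕ} (hT : T.OK H₂ ε C₀ g Γ) (hg : 4 ≤ g)
    (c : ℕ → Fin (2 ^ T.a) → Fin J → ℝ) (H : ℝ) (hc : T.Sparse c H) (i : ℕ) (hi : i ≤ T.top)
    (j : Fin J) : (univ.filter (fun ν => T.accJ c i ν j ≠ 0)).card ≤ (i + 1) * T.k i ^ 2 := by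
  have h1 : univ.filter (fun ν => T.accJ c i ν j ≠ 0) ⊆
      (range (i + 1)).biUnion (fun s' => univ.filter (fun ν => c s' ν j ≠ 0)) := by
    intro ν hν
    simp only [mem_filter, mem_univ, true_and] at hν
    unfold Tower.accJ Tower.acc at hν
    obtain ⟨s', hs', h⟩ := exists_ne_zero_of_sum_ne_zero hν
    simp only [mem_biUnion, mem_filter, mem_univ, true_and]
    refine ⟨s', hs', fun h0 => h ?_⟩
    beta_reduce
    rw [h0, mul_zero]
  refine (card_le_card h1).trans (card_biUnion_le.trans ?_)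
  calc ∑ s' ∈ range (i + 1), (univ.filter (fun ν => c s' ν j ≠ 0)).card
      ≤ ∑ s' ∈ range (i + 1), T.k i ^ 2 := by
        refine sum_le_sum fun s' hs' => ?_
        have h := (hc s' j).2.1
        have hs'2 : s' ≤ i := by simp at hs'; omega
        exact h.trans (Nat.pow_le_pow_left (Run7.h163.NEG.SPARSE.k_mono hT hg hs'2 hi) 2)
    _ = (i + 1) * T.k i ^ 2 := by simp

end main

theorem main_UPB : S_UPB := by
  intro K top hK
  refine ⟨top + 8, ?_⟩
  intro H₂ ε C₀ g T hg hε0 hε1 hTK hTtop hT E _ _ X i hi r hr1 hr2 z w y y' c c' H κ κ' δ lam V S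
    hz hc0 hcs hmc hw hc's hcost' hlam hVz hVS hδ
  obtain ⟨n', hn'⟩ : ∃ n', T.top = i + 1 + n' := ⟨top - (i + 1), by omega⟩
  have hk8 : ∀ s, top + 8 ≤ T.k s := fun s => hT.base.trans (hT.k_ge s)
  have hkpos : ∀ s, 1 ≤ T.k s := fun s => by have := hk8 s; omega
  have hkpos' : ∀ s, (1 : ℝ) ≤ T.k s := fun s => by exact_mod_cast hkpos s
  have hk8' : ∀ s, (8 : ℝ) ≤ T.k s := fun s => by
    have : 8 ≤ T.k s := by have := hk8 s; omega
    exact_mod_cast this
  have hitop : i < T.top := by omega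
  have hrep := rep_mixed X (i := i) (lam := lam) V hz hw hVz
  have hmain := sum_norm_sq_le X hrep
  refine hmain.trans ?_
  rw [mc_eq]
  set F : ℕ → ℝ := fun s => hs (fun b => mixR (signA V) (YY X i lam w y y' c' s b)) with hF
  set G : ℕ → ℝ := fun s => hs (fun ν => mixR (signA V) (dd T i lam c c' s ν)) +
    rho (fun ν => mixR (signA V) (dd T i lam c c' s ν)) ^ 2 / (T.k s : ℝ) with hG
  set Q := ∑ ν ∈ Sᶜ, ∑ j, (T.accJ c' i ν j - lam * c i ν j) ^ 2 +
          ∑ ν ∈ S, ∑ j, c i ν j ^ 2 with hQ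
  have hlam2 : lam ^ 2 ≤ 1 := by
    rw [← sq_abs]
    exact pow_le_one₀ (abs_nonneg _) hlam
  have hA := contr_signA V
  have e0 : ∑ s ∈ range (T.top + 1), (hs (fun b => mixR (signA V) (YY X i lam w y y' c' s b)) +
      hs (fun ν => mixR (signA V) (dd T i lam c c' s ν)) +
      rho (fun ν => mixR (signA V) (dd T i lam c c' s ν)) ^ 2 / (T.k s : ℝ)) =
      ∑ s ∈ range (i + 1 + (n' + 1)), (F s + G s) := by
    rw [hn', add_assoc (i + 1) n' 1]
    exact sum_congr rfl fun s _ => by simp only [hF, hG]; ring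
  rw [e0, sum_range_add]
  -- part 1
  have p1 : ∑ s ∈ range (i + 1), (F s + G s) ≤ δ * r := by
    refine le_trans (le_of_eq (sum_congr rfl fun s hs' => ?_)) hδ
    have hsi : s ≤ i := by simp at hs'; omega
    have h1 : G s = 0 := by
      simp only [hG]
      have h2 : dd T i lam c c' s = fun _ _ => 0 := by
        funext ν j
        exact dd_le i lam c c' s hsi ν j
      rw [h2]
      simp [hs, rho, mixR]
    rw [h1, add_zero]
    simp only [hF, hs]
    refine sum_congr rfl fun b _ => ?_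
    rw [sum_mixR_signA]
    have h3 : YY X i lam w y y' c' s b = fun j => X.lev s (w j) b := by
      funext j
      simp [YY, hsi]
    rw [h3]
  -- part 2
  have p2 : ∀ s, i < s → s ≤ T.top → F s ≤ 6 * (hs (y' s) + hs (c' s) +
      ∑ j, (∑ ν, |c' s ν j|) ^ 2 / (T.k s : ℝ)) + 3 * hs (y s) := by
    intro s his hst
    have h1 : F s ≤ hs (YY X i lam w y y' c' s) := hs_mix_le hA _
    have h2 : hs (YY X i lam w y y' c' s) ≤ 3 * hs (y' s) + 3 * hs (T.GM s (c' s)) +
        3 * hs (y s) := by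
      unfold hs
      simp only [mul_sum, ← sum_add_distrib]
      refine sum_le_sum fun b _ => sum_le_sum fun j _ => ?_
      have h3 : ¬ s ≤ i := by omega
      simp only [YY, h3, if_false]
      have h4 : (lam * y s b j) ^ 2 ≤ y s b j ^ 2 := by
        rw [mul_pow]
        nlinarith [sq_nonneg (y s b j)]
      nlinarith [sq_nonneg (y' s b j - T.GM s (c' s) b j), sq_nonneg (y' s b j + lam * y s b j),
        sq_nonneg (T.GM s (c' s) b j + lam * y s b j)]
    have h3 := hsGM_le hT hε1.le s hst (c' s)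
    have h4 : 8 / (T.k s : ℝ) ^ 2 * ∑ j, (∑ ν, |c' s ν j|) ^ 2 ≤
        ∑ j, (∑ ν, |c' s ν j|) ^ 2 / (T.k s : ℝ) := by
      rw [← sum_div]
      have hk := hk8' s
      have h5 : 0 ≤ ∑ j, (∑ ν, |c' s ν j|) ^ 2 := by positivity
      rw [div_mul_eq_mul_div, div_le_div_iff₀ (by positivity) (by linarith)]
      nlinarith [mul_nonneg h5 (show (0 : ℝ) ≤ T.k s by linarith),
        mul_nonneg (mul_nonneg h5 (show (0 : ℝ) ≤ T.k s by linarith))
          (show (0 : ℝ) ≤ T.k s - 8 by linarith)]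
    have h6 : 0 ≤ ∑ j, (∑ ν, |c' s ν j|) ^ 2 / (T.k s : ℝ) := by
      have := hkpos' s
      positivity
    have h7 := hs_nonneg (y' s)
    have h8 := hs_nonneg (c' s)
    linarith
  -- part 3, first level
  have hki : T.k i ^ 4 ≤ r := by
    refine le_trans ?_ hr1
    rw [hT.n_eq i hitop, ← pow_mul]
    exact Nat.pow_le_pow_right (hkpos i) (by norm_num)
  have hr0 : 1 ≤ r := le_trans (Nat.one_le_pow _ _ (hkpos i)) hki
  have p3 : G (i + 1) ≤ 4 * (K : ℝ) ^ 2 * Q + 2 * hs (c (i + 1)) +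
      2 * (rho (c (i + 1)) ^ 2 / (T.k (i + 1) : ℝ)) := by
    have h1 := card_rows_le (T := T) (T.k i ^ 3) (c i) (fun j => (hcs j).2.1)
    have h2 := card_rows_le (T := T) ((i + 1) * T.k i ^ 2) (T.accJ c' i)
      (fun j => card_acc_le hT hg c' H hc's i hitop.le j)
    have h3 := first_le (T := T) (lam := lam) hlam (c := c) (c' := c') V S hc0 hVS
      (univ.filter (fun ν => ∃ j, c i ν j ≠ 0) ∪ univ.filter (fun ν => ∃ j, T.accJ c' i ν j ≠ 0))
      (by
        intro ν hν j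
        by_contra h
        exact hν (mem_union_left _ (by simp only [mem_filter, mem_univ, true_and]; exact ⟨j, h⟩)))
      (by
        intro ν hν j
        by_contra h
        exact hν (mem_union_right _ (by simp only [mem_filter, mem_univ, true_and]; exact ⟨j, h⟩)))
      (by
        refine (card_union_le _ _).trans ((add_le_add h1 h2).trans ?_)
        have h4 : i + 1 ≤ T.k i := by have := hk8 i; omega
        calc r * T.k i ^ 3 + r * ((i + 1) * T.k i ^ 2)
            ≤ r * T.k i ^ 3 + r * (T.k i * T.k i ^ 2) := by gcongr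
          _ = r * (2 * T.k i ^ 3) := by ring
          _ ≤ r * (T.k i * T.k i ^ 3) := by
              have := hk8 i
              gcongr
              omega
          _ = r * T.k i ^ 4 := by ring
          _ ≤ r * r := by gcongr
          _ = r ^ 2 := by ring
          _ ≤ r ^ 4 := Nat.pow_le_pow_right hr0 (by norm_num)
          _ ≤ _ := hr2)
      (hkpos _)
    rw [hTK] at h3
    exact h3
  -- part 3, later levels
  have p4 : ∀ s, i < s → s < T.top → G (s + 1) ≤ 4 * (K : ℝ) ^ 2 * hs (c' s) +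
      2 * hs (c (s + 1)) + 2 * (rho (c (s + 1)) ^ 2 / (T.k (s + 1) : ℝ)) := by
    intro s his hst
    have h1 := card_rows_le (T := T) (T.k s ^ 2) (c' s) (fun j => (hc's s j).2.1)
    have h3 := later_le (T := T) his (lam := lam) hlam (c := c) (c' := c') V
      (univ.filter (fun ν => ∃ j, c' s ν j ≠ 0))
      (by
        intro ν hν j
        by_contra h
        exact hν (by simp only [mem_filter, mem_univ, true_and]; exact ⟨j, h⟩))
      (by
        refine h1.trans ?_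
        have h4 : r ≤ T.k s := by
          calc r = r ^ 1 := (pow_one _).symm
            _ ≤ r ^ 4 := Nat.pow_le_pow_right hr0 (by norm_num)
            _ ≤ T.k (i + 1) := hr2
            _ ≤ T.k s := Run7.h163.NEG.SPARSE.k_mono hT hg his hst.le
        calc r * T.k s ^ 2 ≤ T.k s * T.k s ^ 2 := Nat.mul_le_mul_right _ h4
          _ = T.k s ^ 3 := by ring
          _ ≤ T.k s ^ (30 * g) := Nat.pow_le_pow_right (hkpos s) (by omega)
          _ = T.n s ^ g := by rw [hT.n_eq s hst, ← pow_mul]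
          _ ≤ _ := hT.gap s hst)
      (hkpos _)
    rw [hTK] at h3
    exact h3
  -- the two budgets
  have b1 : ∑ m ∈ range (n' + 1), (hs (y' (i + 1 + m)) + hs (c' (i + 1 + m)) +
      ∑ j, (∑ ν, |c' (i + 1 + m) ν j|) ^ 2 / (T.k (i + 1 + m) : ℝ)) ≤ κ' * r := by
    refine le_trans ?_ hcost'
    rw [cost_split, hn', add_assoc (i + 1) n' 1, sum_range_add _ (i + 1) (n' + 1)]
    have : 0 ≤ ∑ s ∈ range (i + 1), (hs (y' s) + hs (c' s) +
        ∑ j, (∑ ν, |c' s ν j|) ^ 2 / (T.k s : ℝ)) := by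
      refine sum_nonneg fun s _ => ?_
      have h1 := hs_nonneg (y' s)
      have h2 := hs_nonneg (c' s)
      have h3 := hkpos' s
      positivity
    linarith
  have b2 : ∑ m ∈ range (n' + 1), (hs (y (i + 1 + m)) + hs (c (i + 1 + m)) +
      rho (c (i + 1 + m)) ^ 2 / (T.k (i + 1 + m) : ℝ)) ≤ κ * r := by
    refine le_trans ?_ hmc
    rw [mc_eq, hn', add_assoc (i + 1) n' 1, sum_range_add _ (i + 1) (n' + 1)]
    have h0 : 0 ≤ ∑ s ∈ range (i + 1), (hs (y s) + hs (T.above i c s) +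
        rho (T.above i c s) ^ 2 / (T.k s : ℝ)) := by
      refine sum_nonneg fun s _ => ?_
      have h1 := hs_nonneg (y s)
      have h2 := hs_nonneg (T.above i c s)
      have h3 := hkpos' s
      positivity
    refine le_trans (le_of_eq ?_) (le_add_of_nonneg_left h0)
    refine sum_congr rfl fun m _ => ?_
    have h1 : T.above i c (i + 1 + m) = c (i + 1 + m) := by
      funext ν j
      have h2 : ¬ (i + 1 + m ≤ i) := by omega
      simp [Tower.above, h2]
    rw [h1]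
  rw [sum_add_distrib (s := range (n' + 1))]
  have q2 : ∑ m ∈ range (n' + 1), F (i + 1 + m) ≤
      6 * (κ' * r) + 3 * ∑ m ∈ range (n' + 1), hs (y (i + 1 + m)) := by
    calc _ ≤ ∑ m ∈ range (n' + 1), (6 * (hs (y' (i + 1 + m)) + hs (c' (i + 1 + m)) +
        ∑ j, (∑ ν, |c' (i + 1 + m) ν j|) ^ 2 / (T.k (i + 1 + m) : ℝ)) +
          3 * hs (y (i + 1 + m))) := by
          refine sum_le_sum fun m hm => p2 _ (by omega) ?_
          rw [mem_range] at hm
          omega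
      _ = 6 * (∑ m ∈ range (n' + 1), (hs (y' (i + 1 + m)) + hs (c' (i + 1 + m)) +
        ∑ j, (∑ ν, |c' (i + 1 + m) ν j|) ^ 2 / (T.k (i + 1 + m) : ℝ))) +
          3 * ∑ m ∈ range (n' + 1), hs (y (i + 1 + m)) := by
          rw [sum_add_distrib, ← mul_sum, ← mul_sum]
      _ ≤ _ := by linarith
  have q3 : ∑ m ∈ range (n' + 1), G (i + 1 + m) ≤
      4 * (K : ℝ) ^ 2 * Q + 4 * (K : ℝ) ^ 2 * (κ' * r) +
        2 * ∑ m ∈ range (n' + 1), (hs (c (i + 1 + m)) +
          rho (c (i + 1 + m)) ^ 2 / (T.k (i + 1 + m) : ℝ)) := by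
    have h1 : ∑ m ∈ range n', G (i + 1 + (m + 1)) ≤
        4 * (K : ℝ) ^ 2 * ∑ m ∈ range n', hs (c' (i + 1 + m)) +
        2 * ∑ m ∈ range n', (hs (c (i + 1 + (m + 1))) +
          rho (c (i + 1 + (m + 1))) ^ 2 / (T.k (i + 1 + (m + 1)) : ℝ)) := by
      rw [mul_sum, mul_sum, ← sum_add_distrib]
      refine sum_le_sum fun m hm => ?_
      rw [mem_range] at hm
      have h2 := p4 (i + 1 + m) (by omega) (by omega)
      have h3 : i + 1 + (m + 1) = i + 1 + m + 1 := by omega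
      rw [h3]
      linarith
    have h4 : ∑ m ∈ range n', hs (c' (i + 1 + m)) ≤ κ' * r := by
      refine le_trans ?_ b1
      rw [sum_range_succ]
      have h5 : ∀ m, hs (c' (i + 1 + m)) ≤ hs (y' (i + 1 + m)) + hs (c' (i + 1 + m)) +
          ∑ j, (∑ ν, |c' (i + 1 + m) ν j|) ^ 2 / (T.k (i + 1 + m) : ℝ) := by
        intro m
        have h6 := hs_nonneg (y' (i + 1 + m))
        have h7 : 0 ≤ ∑ j, (∑ ν, |c' (i + 1 + m) ν j|) ^ 2 / (T.k (i + 1 + m) : ℝ) := by
          have := hkpos' (i + 1 + m)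
          positivity
        linarith
      have h8 := sum_le_sum (s := range n') fun m _ => h5 m
      have h9 := (hs_nonneg _).trans (h5 n')
      linarith
    rw [sum_range_succ']
    rw [sum_range_succ' (fun m => hs (c (i + 1 + m)) +
          rho (c (i + 1 + m)) ^ 2 / (T.k (i + 1 + m) : ℝ))]
    simp only [add_zero]
    have h10 : 4 * (K : ℝ) ^ 2 * ∑ m ∈ range n', hs (c' (i + 1 + m)) ≤
        4 * (K : ℝ) ^ 2 * (κ' * r) := mul_le_mul_of_nonneg_left h4 (by positivity)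
    linarith
  have b3 : ∑ m ∈ range (n' + 1), (hs (y (i + 1 + m)) + hs (c (i + 1 + m)) +
      rho (c (i + 1 + m)) ^ 2 / (T.k (i + 1 + m) : ℝ)) =
      ∑ m ∈ range (n' + 1), hs (y (i + 1 + m)) + ∑ m ∈ range (n' + 1), (hs (c (i + 1 + m)) +
      rho (c (i + 1 + m)) ^ 2 / (T.k (i + 1 + m) : ℝ)) := by
    rw [← sum_add_distrib]
    exact sum_congr rfl fun m _ => by ring
  rw [b3] at b2
  have n1 : 0 ≤ ∑ m ∈ range (n' + 1), hs (y (i + 1 + m)) := sum_nonneg fun m _ => hs_nonneg _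
  have n2 : 0 ≤ ∑ m ∈ range (n' + 1), (hs (c (i + 1 + m)) +
      rho (c (i + 1 + m)) ^ 2 / (T.k (i + 1 + m) : ℝ)) := by
    refine sum_nonneg fun m _ => ?_
    have h1 := hs_nonneg (c (i + 1 + m))
    have h2 := hkpos' (i + 1 + m)
    positivity
  have n3 : 0 ≤ κ' * r := by
    refine le_trans ?_ b1
    refine sum_nonneg fun m _ => ?_
    have h1 := hs_nonneg (y' (i + 1 + m))
    have h1' := hs_nonneg (c' (i + 1 + m))
    have h2 := hkpos' (i + 1 + m)
    positivity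
  have hQ0 : 0 ≤ Q := by positivity
  have hK2 : (1 : ℝ) ≤ (K : ℝ) ^ 2 := one_le_pow₀ (by exact_mod_cast hK)
  have m1 : 0 ≤ (K : ℝ) ^ 2 * Q := by positivity
  have m2 : κ' * r ≤ (K : ℝ) ^ 2 * (κ' * r) := by nlinarith
  have m3 : 30 * (K : ℝ) ^ 2 * (∑ ν ∈ Sᶜ, ∑ j, (T.accJ c' i ν j - lam * c i ν j) ^ 2 +
      ∑ ν ∈ S, ∑ j, c i ν j ^ 2 + κ' * r) = 30 * ((K : ℝ) ^ 2 * Q) +
        30 * ((K : ℝ) ^ 2 * (κ' * r)) := by
    rw [hQ]; ring
  rw [m3]
  linarith

end Run7.h778.NEG
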